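import Pool.Agent.helper33.WD.Defs

/-! # MP_4467b5_nt, wd:DS: the sum of the squares of the number of divisors -/

set_option autoImplicit false

namespace Pool.Agent.helper33.WD

open Complex MeasureTheory

theorem DS_point {N n : ℕ} (hn : n ∈ Finset.Icc 1 N) :
    (n.divisors.card) ^ 2 ≤ ((Finset.Icc 1 N ×ˢ (Finset.Icc 1 N ×ˢ Finset.Icc 1 N)).filter
      (fun q : ℕ × ℕ × ℕ => q.1 * (q.2.1 * q.2.2) ∣ n)).card := by
  rw [pow_two, ← Finset.card_product]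
  have hn1 := (Finset.mem_Icc.1 hn).1
  have hnN := (Finset.mem_Icc.1 hn).2
  refine Finset.card_le_card_of_injOn
    (fun p : ℕ × ℕ => (Nat.gcd p.1 p.2, p.1 / Nat.gcd p.1 p.2, p.2 / Nat.gcd p.1 p.2)) ?_ ?_
  · rintro ⟨a, b⟩ h
    simp only [Finset.coe_product, Set.mem_prod, Finset.mem_coe, Nat.mem_divisors] at h
    obtain ⟨⟨ha, -⟩, ⟨hb, -⟩⟩ := h
    have ha0 : 0 < a := Nat.pos_of_dvd_of_pos ha hn1
    have hb0 : 0 < b := Nat.pos_of_dvd_of_pos hb hn1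
    have hg0 : 0 < Nat.gcd a b := Nat.gcd_pos_of_pos_left _ ha0
    have haN : a ≤ N := (Nat.le_of_dvd hn1 ha).trans hnN
    have hbN : b ≤ N := (Nat.le_of_dvd hn1 hb).trans hnN
    have hga : Nat.gcd a b ≤ a := Nat.gcd_le_left _ ha0
    have hgb : Nat.gcd a b ≤ b := Nat.gcd_le_right _ hb0
    simp only [Finset.coe_filter, Finset.mem_product, Finset.mem_Icc, Set.mem_ofPred_eq]
    refine ⟨⟨⟨hg0, hga.trans haN⟩, ⟨Nat.div_pos hga hg0, (Nat.div_le_self _ _).trans haN⟩,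
      ⟨Nat.div_pos hgb hg0, (Nat.div_le_self _ _).trans hbN⟩⟩, ?_⟩
    have h1 : Nat.gcd a b * (a / Nat.gcd a b * (b / Nat.gcd a b)) = Nat.lcm a b := by
      rw [← mul_assoc, Nat.mul_div_cancel' (Nat.gcd_dvd_left a b)]
      unfold Nat.lcm
      rw [Nat.mul_div_assoc _ (Nat.gcd_dvd_right a b)]
    rw [h1]
    exact Nat.lcm_dvd ha hb
  · rintro ⟨a, b⟩ - ⟨a', b'⟩ - h
    simp only [Prod.mk.injEq] at h
    obtain ⟨h1, h2, h3⟩ := h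
    have e1 : a = a' := by
      rw [← Nat.mul_div_cancel' (Nat.gcd_dvd_left a b), ← Nat.mul_div_cancel' (Nat.gcd_dvd_left a' b'), h2, h1]
    have e2 : b = b' := by
      rw [← Nat.mul_div_cancel' (Nat.gcd_dvd_right a b), ← Nat.mul_div_cancel' (Nat.gcd_dvd_right a' b'), h3, h1]
    rw [e1, e2]

/-- wd:DS -/
theorem sum_card_divisors_sq (N : ℕ) :
    ∑ n ∈ Finset.Icc 1 N, ((n.divisors.card : ℝ)) ^ 2 ≤ N * (1 + Real.log N) ^ 3 := by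
  set T := Finset.Icc 1 N ×ˢ (Finset.Icc 1 N ×ˢ Finset.Icc 1 N) with hT
  have h1 : ∑ n ∈ Finset.Icc 1 N, ((n.divisors.card : ℝ)) ^ 2 ≤
      ∑ n ∈ Finset.Icc 1 N, ∑ q ∈ T, if q.1 * (q.2.1 * q.2.2) ∣ n then (1 : ℝ) else 0 := by
    refine Finset.sum_le_sum fun n hn => ?_
    rw [Finset.sum_boole]
    exact_mod_cast DS_point hn
  refine h1.trans ?_
  rw [Finset.sum_comm]
  have h2 : ∀ q ∈ T, ∑ n ∈ Finset.Icc 1 N, (if q.1 * (q.2.1 * q.2.2) ∣ n then (1 : ℝ) else 0) ≤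
      N * ((q.1 : ℝ)⁻¹ * ((q.2.1 : ℝ)⁻¹ * (q.2.2 : ℝ)⁻¹)) := by
    intro q _
    rw [Finset.sum_boole]
    have h3 : (Finset.Icc 1 N).filter (fun n => q.1 * (q.2.1 * q.2.2) ∣ n) =
        (Finset.Ioc 0 N).filter (fun n => q.1 * (q.2.1 * q.2.2) ∣ n) := rfl
    rw [h3, Nat.Ioc_filter_dvd_card_eq_div]
    refine (Nat.cast_div_le).trans (le_of_eq ?_)
    push_cast
    rw [div_eq_mul_inv, mul_inv, mul_inv]
  refine (Finset.sum_le_sum h2).trans ?_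
  rw [← Finset.mul_sum, hT]
  have h4 : ∑ q ∈ Finset.Icc 1 N ×ˢ (Finset.Icc 1 N ×ˢ Finset.Icc 1 N),
      ((q.1 : ℝ)⁻¹ * ((q.2.1 : ℝ)⁻¹ * (q.2.2 : ℝ)⁻¹)) = (∑ g ∈ Finset.Icc 1 N, (g : ℝ)⁻¹) ^ 3 := by
    rw [Finset.sum_product]
    have h5 : ∀ g : ℕ, ∑ y ∈ Finset.Icc 1 N ×ˢ Finset.Icc 1 N, ((g : ℝ)⁻¹ * ((y.1 : ℝ)⁻¹ * (y.2 : ℝ)⁻¹)) =
        (g : ℝ)⁻¹ * (∑ g ∈ Finset.Icc 1 N, (g : ℝ)⁻¹) ^ 2 := by
      intro g
      rw [← Finset.mul_sum, Finset.sum_product, pow_two, Finset.sum_mul_sum]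
    simp only [h5]
    rw [← Finset.sum_mul]
    ring
  rw [h4]
  have h5 : ∑ g ∈ Finset.Icc 1 N, (g : ℝ)⁻¹ ≤ 1 + Real.log N := by
    have h6 := harmonic_le_one_add_log N
    rw [harmonic_eq_sum_Icc] at h6
    push_cast at h6
    exact h6
  have h6 : 0 ≤ ∑ g ∈ Finset.Icc 1 N, (g : ℝ)⁻¹ := Finset.sum_nonneg fun g _ => by positivity
  exact mul_le_mul_of_nonneg_left (pow_le_pow_left₀ h6 h5 3) (Nat.cast_nonneg N)

end Pool.Agent.helper33.WD
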