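import Pool.Agent.helper33.WD.Defs
import Pool.Agent.helper85.LD.G1

/-! # MP_4467b5_nt, wd:GR: the entire function zz and the growth of zeta -/

set_option autoImplicit false

namespace Pool.Agent.helper33.WD

open Complex MeasureTheory Set Filter Topology

theorem GR_eq {s : ℂ} (hs : s ≠ 1) : zz s = (s - 1) * riemannZeta s := by
  unfold zz
  rw [if_neg hs]

theorem GR_cont_one : ContinuousAt zz 1 := by
  rw [continuousAt_iff_punctured_nhds]
  have h1 : zz 1 = 1 := by unfold zz; rw [if_pos rfl]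
  rw [h1]
  refine riemannZeta_residue_one.congr' ?_
  filter_upwards [self_mem_nhdsWithin] with s hs
  exact (GR_eq hs).symm

/-- wd:GR  `(s - 1) ζ(s)` is entire and of polynomial growth in the strip. -/
theorem zz_differentiable : Differentiable ℂ zz := by
  rw [← differentiableOn_univ]
  refine (Complex.differentiableOn_compl_singleton_and_continuousAt_iff (c := 1) univ_mem).1 ⟨?_, GR_cont_one⟩
  intro s hs
  have hs1 : s ≠ 1 := by simpa using hs
  have h1 : DifferentiableAt ℂ (fun s => (s - 1) * riemannZeta s) s :=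
    (differentiableAt_id.sub_const 1).mul (differentiableAt_riemannZeta hs1)
  have h2 : DifferentiableAt ℂ zz s := by
    refine h1.congr_of_eventuallyEq ?_
    filter_upwards [isOpen_ne.mem_nhds hs1] with z hz
    exact GR_eq hz
  exact h2.differentiableWithinAt

theorem GR_re_im (s : ℂ) : ‖s‖ ≤ |s.re| + |s.im| := Complex.norm_le_abs_re_add_abs_im s

theorem zz_growth : ∃ C : ℝ, 0 < C ∧ ∀ s : ℂ, 1 / 2 ≤ s.re → s.re ≤ 2 →
    ‖zz s‖ ≤ C * (1 + |s.im|) ^ 2 := by
  obtain ⟨C₁, hC₁, h1⟩ := Pool.Agent.helper6.LD.zeta_growth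
  have hK : IsCompact (Icc (1 / 2 : ℝ) 2 ×ℂ Icc (-1 : ℝ) 1) := isCompact_Icc.reProdIm isCompact_Icc
  obtain ⟨C₂, h2⟩ := hK.exists_bound_of_continuousOn zz_differentiable.continuous.continuousOn
  refine ⟨2 * C₁ + |C₂|, by positivity, fun s hs hs' => ?_⟩
  have hi : 1 ≤ (1 + |s.im|) ^ 2 := by nlinarith [abs_nonneg s.im]
  rcases le_total 1 |s.im| with h | h
  · have hs1 : s ≠ 1 := by
      rintro rfl
      simp at h
      linarith
    rw [GR_eq hs1, norm_mul]
    have h3 := h1 s (by linarith) h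
    have h4 : ‖s - 1‖ ≤ 1 + |s.im| := by
      refine (GR_re_im (s - 1)).trans ?_
      simp only [sub_re, one_re, sub_im, one_im, sub_zero]
      have : |s.re - 1| ≤ 1 := by rw [abs_le]; constructor <;> linarith
      linarith
    have h5 : ‖s‖ ≤ 2 * (1 + |s.im|) := by
      refine (GR_re_im s).trans ?_
      have : |s.re| ≤ 2 := by rw [abs_le]; constructor <;> linarith
      have := abs_nonneg s.im
      linarith
    calc ‖s - 1‖ * ‖riemannZeta s‖ ≤ (1 + |s.im|) * (C₁ * (2 * (1 + |s.im|))) :=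
          mul_le_mul h4 (h3.trans (mul_le_mul_of_nonneg_left h5 hC₁.le)) (norm_nonneg _) (by positivity)
      _ = 2 * C₁ * (1 + |s.im|) ^ 2 := by ring
      _ ≤ (2 * C₁ + |C₂|) * (1 + |s.im|) ^ 2 :=
          mul_le_mul_of_nonneg_right (by linarith [abs_nonneg C₂]) (by positivity)
  · have h3 := h2 s (by
      rw [mem_reProdIm]
      exact ⟨⟨hs, hs'⟩, abs_le.1 h⟩)
    calc ‖zz s‖ ≤ C₂ := h3
      _ ≤ |C₂| * 1 := by rw [mul_one]; exact le_abs_self _
      _ ≤ (2 * C₁ + |C₂|) * (1 + |s.im|) ^ 2 :=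
          mul_le_mul (by linarith) hi (by norm_num) (by positivity)

theorem GR_ne_one (t : ℝ) : (1 / 2 + t * I : ℂ) ≠ 1 := by
  intro h
  have := congrArg Complex.re h
  simp at this

theorem posLog_zeta_continuous :
    Continuous fun t : ℝ => Real.posLog ‖riemannZeta (1 / 2 + t * I)‖ := by
  refine Real.continuous_posLog.comp (Continuous.norm ?_)
  rw [continuous_iff_continuousAt]
  intro t
  have h1 : ContinuousAt (fun t : ℝ => (1 / 2 + t * I : ℂ)) t := by fun_prop
  exact ContinuousAt.comp (f := fun t : ℝ => (1 / 2 + t * I : ℂ))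
    (differentiableAt_riemannZeta (GR_ne_one t)).continuousAt h1

/-- wd:GR  growth of `log⁺ |ζ|` on the critical line. -/
theorem posLog_zeta_le : ∃ C : ℝ, 0 < C ∧ ∀ t : ℝ, Real.posLog ‖riemannZeta (1 / 2 + t * I)‖ ≤
    C * Real.log (|t| + 3) := by
  obtain ⟨C₁, hC₁, h1⟩ := Pool.Agent.helper6.LD.zeta_growth
  obtain ⟨C₂, h2⟩ := (isCompact_Icc (a := (-1 : ℝ)) (b := 1)).exists_bound_of_continuousOn
    posLog_zeta_continuous.continuousOn
  have hl3 : 1 ≤ Real.log 3 := by
    rw [Real.le_log_iff_exp_le (by norm_num)]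
    linarith [Real.exp_one_lt_d9]
  have hp : 0 ≤ Real.posLog C₁ := Real.posLog_nonneg
  refine ⟨Real.posLog C₁ + 1 + |C₂|, by positivity, fun t => ?_⟩
  have hl : 1 ≤ Real.log (|t| + 3) :=
    hl3.trans (Real.log_le_log (by norm_num) (by linarith [abs_nonneg t]))
  rcases le_total 1 |t| with h | h
  · have him : (1 / 2 + t * I : ℂ).im = t := by simp
    have hre : (1 / 2 + t * I : ℂ).re = 1 / 2 := by simp
    have h3 := h1 (1 / 2 + t * I) (by rw [hre]; norm_num) (by rw [him]; exact h)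
    have h5 : ‖(1 / 2 + t * I : ℂ)‖ ≤ |t| + 3 := by
      refine (GR_re_im _).trans ?_
      rw [him, hre, abs_of_nonneg (by norm_num : (0 : ℝ) ≤ 1 / 2)]
      linarith
    have h4 : ‖riemannZeta (1 / 2 + t * I)‖ ≤ C₁ * (|t| + 3) :=
      h3.trans (mul_le_mul_of_nonneg_left h5 hC₁.le)
    have h6 : Real.posLog ‖riemannZeta (1 / 2 + t * I)‖ ≤ Real.posLog (C₁ * (|t| + 3)) :=
      Real.posLog_le_posLog (norm_nonneg _) h4
    have h7 : Real.posLog (C₁ * (|t| + 3)) ≤ Real.posLog C₁ + Real.posLog (|t| + 3) := Real.posLog_mul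
    have h8 : Real.posLog (|t| + 3) = Real.log (|t| + 3) := by
      apply Real.posLog_eq_log
      rw [abs_of_nonneg (by positivity)]
      linarith [abs_nonneg t]
    rw [h8] at h7
    have h9 : Real.posLog C₁ ≤ Real.posLog C₁ * Real.log (|t| + 3) := by
      nlinarith
    have h10 : 0 ≤ |C₂| * Real.log (|t| + 3) := by positivity
    nlinarith
  · have h3 := h2 t (abs_le.1 h)
    rw [Real.norm_eq_abs] at h3
    have h4 := (le_abs_self _).trans h3
    have h5 : C₂ ≤ |C₂| := le_abs_self _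
    have h6 : |C₂| ≤ |C₂| * Real.log (|t| + 3) := by nlinarith [abs_nonneg C₂]
    have h7 : 0 ≤ (Real.posLog C₁ + 1) * Real.log (|t| + 3) := by positivity
    nlinarith

end Pool.Agent.helper33.WD
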