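import Pool.Agent.helper33.WD.Defs
import Pool.Agent.helper58.LD.MV

/-! # MP_4467b5_nt, wd:LM: mean value of the mollifier on the critical line -/

set_option autoImplicit false

namespace Pool.Agent.helper33.WD

open Complex MeasureTheory Set
open Pool.Agent.helper6.LD (dp mean_value)

theorem LM_mob (N : ℕ) (t : ℝ) :
    mob N (1 / 2 + t * I) = dp N (fun n => (ArithmeticFunction.moebius n : ℂ) * (n : ℂ) ^ (-(1 / 2 : ℂ))) t := by
  unfold mob dp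
  refine Finset.sum_congr rfl fun n hn => ?_
  have hn0 : (n : ℂ) ≠ 0 := by
    have := (Finset.mem_Icc.1 hn).1
    exact_mod_cast (show n ≠ 0 by omega)
  rw [mul_assoc, ← Complex.cpow_add _ _ hn0]
  congr 2
  ring

theorem LM_coef (N : ℕ) :
    ∑ n ∈ Finset.Icc 1 N, ‖(ArithmeticFunction.moebius n : ℂ) * (n : ℂ) ^ (-(1 / 2 : ℂ))‖ ^ 2 ≤
      1 + Real.log N := by
  have h6 := harmonic_le_one_add_log N
  rw [harmonic_eq_sum_Icc] at h6
  push_cast at h6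
  refine le_trans (Finset.sum_le_sum fun n hn => ?_) h6
  have hn1 := (Finset.mem_Icc.1 hn).1
  have hn0 : (0 : ℝ) < n := by exact_mod_cast hn1
  have h1 : ‖(n : ℂ) ^ (-(1 / 2 : ℂ))‖ = (n : ℝ) ^ (-(1 / 2 : ℝ)) := by
    rw [← Complex.ofReal_natCast, Complex.norm_cpow_eq_rpow_re_of_pos hn0]
    simp
  have h2 : ‖((ArithmeticFunction.moebius n : ℤ) : ℂ)‖ ≤ 1 := by
    rw [Complex.norm_intCast]
    exact_mod_cast ArithmeticFunction.abs_moebius_le_one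
  rw [norm_mul, h1, mul_pow]
  have h3 : ((n : ℝ) ^ (-(1 / 2 : ℝ))) ^ 2 = (n : ℝ)⁻¹ := by
    rw [← Real.rpow_natCast, ← Real.rpow_mul hn0.le]
    norm_num
    exact Real.rpow_neg_one _
  rw [h3]
  have h4 : ‖((ArithmeticFunction.moebius n : ℤ) : ℂ)‖ ^ 2 ≤ 1 := by
    nlinarith [norm_nonneg ((ArithmeticFunction.moebius n : ℤ) : ℂ)]
  calc ‖((ArithmeticFunction.moebius n : ℤ) : ℂ)‖ ^ 2 * (n : ℝ)⁻¹ ≤ 1 * (n : ℝ)⁻¹ :=
        mul_le_mul_of_nonneg_right h4 (by positivity)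
    _ = (n : ℝ)⁻¹ := one_mul _

/-- wd:LM  mean value of the mollifier on the critical line. -/
theorem left_mv : ∃ C : ℝ, 0 < C ∧ ∀ (A H : ℝ) (N : ℕ) (P : Finset ℝ), 1 ≤ H →
    (N : ℝ) ≤ H → H < N + 1 → (∀ t ∈ P, A ≤ t ∧ t ≤ A + H) →
    (∀ s ∈ P, ∀ t ∈ P, s ≠ t → 1 ≤ |s - t|) →
    ∑ t ∈ P, (1 + ‖mob N (1 / 2 + t * I)‖) ^ 2 ≤ C * H * (1 + Real.log H) ^ 4 := by
  refine ⟨48, by norm_num, fun A H N P hH hN hN' hP hsep => ?_⟩
  have hN1 : 1 ≤ N := by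
    by_contra h
    have : N = 0 := by omega
    rw [this] at hN'
    norm_num at hN'
    linarith
  have hNr : (1 : ℝ) ≤ N := by exact_mod_cast hN1
  have hlN : 0 ≤ Real.log N := Real.log_nonneg hNr
  have hlH : Real.log N ≤ Real.log H := Real.log_le_log (by linarith) hN
  set l := Real.log H with hl
  have hl0 : 0 ≤ l := hlN.trans hlH
  -- number of points
  have hcard : (P.card : ℝ) ≤ 12 * H := by
    have h1 := mean_value 1 le_rfl (fun _ => 1) A H (by linarith) P hP hsep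
    have h2 : ∀ t : ℝ, ‖dp 1 (fun _ => 1) t‖ ^ 2 = 1 := by
      intro t
      unfold dp
      simp
    simp only [h2] at h1
    simp only [Finset.sum_const, nsmul_eq_mul, mul_one] at h1
    norm_num at h1
    nlinarith
  have hmv := mean_value N hN1
    (fun n => (ArithmeticFunction.moebius n : ℂ) * (n : ℂ) ^ (-(1 / 2 : ℂ))) A H (by linarith) P hP hsep
  have hcoef := LM_coef N
  have h3 : ∑ t ∈ P, ‖mob N (1 / 2 + t * I)‖ ^ 2 ≤ 12 * H * (1 + l) ^ 4 := by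
    simp only [LM_mob]
    refine hmv.trans ?_
    have e1 : H + 1 + 4 * N * (1 + Real.log N) ≤ 6 * H * (1 + l) := by
      have : (N : ℝ) * (1 + Real.log N) ≤ H * (1 + l) := mul_le_mul hN (by linarith) (by linarith) (by linarith)
      nlinarith
    have e2 : 2 + Real.log N ^ 2 ≤ 2 * (1 + l) ^ 2 := by
      have : Real.log N ^ 2 ≤ l ^ 2 := pow_le_pow_left₀ hlN hlH 2
      nlinarith
    have e3 : ∑ n ∈ Finset.Icc 1 N, ‖(ArithmeticFunction.moebius n : ℂ) * (n : ℂ) ^ (-(1 / 2 : ℂ))‖ ^ 2 ≤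
        1 + l := hcoef.trans (by linarith)
    have e4 : (0 : ℝ) ≤ ∑ n ∈ Finset.Icc 1 N,
        ‖(ArithmeticFunction.moebius n : ℂ) * (n : ℂ) ^ (-(1 / 2 : ℂ))‖ ^ 2 :=
      Finset.sum_nonneg fun n _ => by positivity
    calc (H + 1 + 4 * N * (1 + Real.log N)) * (2 + Real.log N ^ 2) *
          ∑ n ∈ Finset.Icc 1 N, ‖(ArithmeticFunction.moebius n : ℂ) * (n : ℂ) ^ (-(1 / 2 : ℂ))‖ ^ 2
        ≤ (6 * H * (1 + l)) * (2 * (1 + l) ^ 2) * (1 + l) := by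
          refine mul_le_mul (mul_le_mul e1 e2 (by positivity) (by positivity)) e3 e4 (by positivity)
      _ = 12 * H * (1 + l) ^ 4 := by ring
  have h4 : ∑ t ∈ P, (1 + ‖mob N (1 / 2 + t * I)‖) ^ 2 ≤
      2 * P.card + 2 * ∑ t ∈ P, ‖mob N (1 / 2 + t * I)‖ ^ 2 := by
    have h5 : ∀ t ∈ P, (1 + ‖mob N (1 / 2 + t * I)‖) ^ 2 ≤ 2 + 2 * ‖mob N (1 / 2 + t * I)‖ ^ 2 := by
      intro t _
      nlinarith [sq_nonneg (1 - ‖mob N (1 / 2 + t * I)‖)]
    refine (Finset.sum_le_sum h5).trans (le_of_eq ?_)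
    rw [Finset.sum_add_distrib, Finset.sum_const, nsmul_eq_mul, ← Finset.mul_sum]
    ring
  have h5 : 1 ≤ (1 + l) ^ 4 := one_le_pow₀ (by linarith)
  have h6 : H ≤ H * (1 + l) ^ 4 := by nlinarith
  calc ∑ t ∈ P, (1 + ‖mob N (1 / 2 + t * I)‖) ^ 2 ≤ 2 * (12 * H) + 2 * (12 * H * (1 + l) ^ 4) := by linarith
    _ ≤ 48 * H * (1 + l) ^ 4 := by linarith

end Pool.Agent.helper33.WD
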